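import Mathlib
import Pool.Agent.Q190.CSDefs
import Pool.Agent.Q190.Quartic

/-!
# MP_b27533: a convex body in three-space that is not an ellipsoid, all of whose projections are
linear images of completely symmetric sets

The body is `K = {y | ⟪x, y⟫ ≤ h x for all x}` with `h x = (‖x‖² (‖x‖² + x₂²))^(1/4)`.
-/

namespace Pool.Agent.Results.MP_b27533_gt.NonEllipsoidFourfold

open scoped InnerProductSpace
open Q190

/-- Linear image of a completely symmetric set. -/
def IsLinearImageOfCompletelySymmetric {V : Type*} [NormedAddCommGroup V] [InnerProductSpace ℝ V]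
    [MeasurableSpace V] (B : Set V) : Prop :=
  ∃ (A : Set V) (T : V ≃ₗ[ℝ] V), CompletelySymmetric A ∧ B = T '' A

/-- Every hyperplane projection of `K` is a linear image of a completely symmetric set. -/
def ProjectionsAreLinearImagesOfCompletelySymmetric {V : Type*} [NormedAddCommGroup V]
    [InnerProductSpace ℝ V] [FiniteDimensional ℝ V] [MeasurableSpace V] (K : Set V) : Prop :=
  ∀ u : V, ‖u‖ = 1 → IsLinearImageOfCompletelySymmetric (proj (ℝ ∙ u)ᗮ K)

/-- There is a convex body in three-space that is not an ellipsoid (centred anywhere), all of whose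
projections are linear images of completely symmetric sets. -/
theorem result : ∃ K : Set (EuclideanSpace ℝ (Fin 3)), IsConvexBody K ∧ ¬ IsEllipsoid K ∧
    ProjectionsAreLinearImagesOfCompletelySymmetric K :=
  ⟨Quartic.K, Quartic.K_body, Quartic.K_not_ellipsoid, Quartic.projections⟩

end Pool.Agent.Results.MP_b27533_gt.NonEllipsoidFourfold
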